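import Mathlib
import Pool.Agent.V11170.SemiBaxter
import Pool.Agent.V11170.Tools

set_option autoImplicit false

namespace Pool.Agent.Results.MP_673260_co.InfiniteNonUnique

open Finset Pool.Agent.V11170.Tools

/-! ### definitions -/

/-- Permutations of all lengths, in one-line notation (with values from `0`). -/
abbrev P : Type := (n : ℕ) × Equiv.Perm (Fin n)

/-- Pattern containment. -/
def Contains (σ π : P) : Prop :=
  ∃ f : Fin σ.1 → Fin π.1, StrictMono f ∧ ∀ i j, σ.2 i < σ.2 j ↔ π.2 (f i) < π.2 (f j)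

/-- A permutation class: it contains the empty permutation and it is closed downward. -/
def IsClass (C : Set P) : Prop :=
  (⟨0, 1⟩ : P) ∈ C ∧ ∀ π ∈ C, ∀ σ, Contains σ π → σ ∈ C

/-- The entries of `π` in the positions of `S` are order-isomorphic to `σ`. -/
def Sub (σ π : P) (S : Finset (Fin π.1)) : Prop :=
  ∃ f : Fin σ.1 → Fin π.1, StrictMono f ∧ (∀ x, x ∈ S ↔ ∃ i, f i = x) ∧
    ∀ i j, σ.2 i < σ.2 j ↔ π.2 (f i) < π.2 (f j)

/-- The merge: the entries can be coloured red (positions in `S`) and blue (the others), the red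
ones being order-isomorphic to an element of `A` and the blue ones to an element of `B`. -/
def merge (A B : Set P) : Set P :=
  {π | ∃ S : Finset (Fin π.1), (∃ σ ∈ A, Sub σ π S) ∧ ∃ τ ∈ B, Sub τ π Sᶜ}

/-- `C = A ⊙ B` is an exact split: `A` and `B` are classes properly contained in `C`. -/
def ExactSplit (C A B : Set P) : Prop :=
  IsClass A ∧ IsClass B ∧ A ⊂ C ∧ B ⊂ C ∧ C = merge A B

/-- The class is exact-splittable. -/
def ExactSplittable (C : Set P) : Prop := ∃ A B, ExactSplit C A B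

/-- `IrrSplitting C X`: the set `X` of classes is an irreducible exact-splitting of `C`. -/
inductive IrrSplitting : Set P → Set (Set P) → Prop
  | irreducible (C : Set P) : IsClass C → ¬ ExactSplittable C → IrrSplitting C {C}
  | split (C A B : Set P) (X Y : Set (Set P)) : IsClass C → ExactSplit C A B →
      IrrSplitting A X → IrrSplitting B Y → IrrSplitting C (X ∪ Y)

/-! ### basic facts -/

theorem contains_trans {ρ σ π : P} (h : Contains ρ σ) (h' : Contains σ π) : Contains ρ π := by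
  obtain ⟨f, hf, h1⟩ := h
  obtain ⟨g, hg, h2⟩ := h'
  exact ⟨g ∘ f, hg.comp hf, fun i j => (h1 i j).trans (h2 _ _)⟩

theorem Sub.contains {σ π : P} {S : Finset (Fin π.1)} (h : Sub σ π S) : Contains σ π := by
  obtain ⟨f, hf, _, h2⟩ := h
  exact ⟨f, hf, h2⟩

theorem Sub.card {σ π : P} {S : Finset (Fin π.1)} (h : Sub σ π S) : σ.1 = S.card := by
  obtain ⟨f, hf, h1, _⟩ := h
  have h2 : S = univ.image f := by
    ext x
    rw [h1, mem_image]
    constructor
    · rintro ⟨i, hi⟩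
      exact ⟨i, mem_univ _, hi⟩
    · rintro ⟨i, _, hi⟩
      exact ⟨i, hi⟩
  rw [h2, card_image_of_injective _ hf.injective, card_univ, Fintype.card_fin]

/-- The pattern in a set of positions. -/
theorem exists_sub (π : P) (S : Finset (Fin π.1)) : ∃ σ, Sub σ π S := by
  obtain ⟨f, hf⟩ : ∃ f : Fin S.card ↪o Fin π.1, f = S.orderEmbOfFin rfl := ⟨_, rfl⟩
  obtain ⟨τ, hτ⟩ := exists_perm (fun i => (π.2 (f i) : ℕ)) (fun i j hij =>
    f.injective (π.2.injective (Fin.ext hij)))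
  refine ⟨⟨S.card, τ⟩, f, f.strictMono, fun x => ?_, fun i j => hτ i j⟩
  have h := S.range_orderEmbOfFin rfl
  rw [← hf] at h
  rw [← mem_coe, ← h]
  rfl

theorem sub_self (π : P) : Sub π π univ :=
  ⟨id, strictMono_id, fun x => ⟨fun _ => ⟨x, rfl⟩, fun _ => mem_univ _⟩, fun _ _ => Iff.rfl⟩

theorem Sub.eq_of_univ {σ π : P} (h : Sub σ π univ) : σ = π := by
  have h0 := h.card
  rw [card_univ, Fintype.card_fin] at h0
  obtain ⟨n, σ⟩ := σ
  obtain ⟨m, π⟩ := π
  obtain ⟨f, hf, h1, h2⟩ := h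
  simp only at h0 h1 h2 f
  subst h0
  have h3 : f = id := by
    have h4 : Set.range f = Set.range (id : Fin n → Fin n) := by
      ext x
      constructor
      · exact fun _ => ⟨x, rfl⟩
      · intro _
        exact (h1 x).mp (mem_univ x)
    exact (StrictMono.range_inj hf strictMono_id).mp h4
  subst h3
  have h4 : σ = π := perm_eq_of_order σ π h2
  rw [h4]

theorem sub_empty (π : P) : Sub ⟨0, 1⟩ π ∅ :=
  ⟨fun i => i.elim0, fun i => i.elim0, fun x => ⟨fun h => absurd h (notMem_empty x),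
    fun ⟨i, _⟩ => i.elim0⟩, fun i => i.elim0⟩

/-- Positions of a pattern inside a larger pattern. -/
theorem sub_of_subset {ρ σ π : P} {S T : Finset (Fin π.1)} {f : Fin σ.1 → Fin π.1}
    (hf : StrictMono f) (h1 : ∀ x, x ∈ S ↔ ∃ i, f i = x)
    (h2 : ∀ i j, σ.2 i < σ.2 j ↔ π.2 (f i) < π.2 (f j)) (hT : T ⊆ S) (h : Sub ρ π T) :
    Sub ρ σ (univ.filter (fun i => f i ∈ T)) := by
  obtain ⟨g, hg, h3, h4⟩ := h
  have hch : ∀ i, ∃ k, f k = g i := by
    intro i
    exact (h1 (g i)).mp (hT ((h3 (g i)).mpr ⟨i, rfl⟩))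
  choose k hk using hch
  refine ⟨k, fun i j hij => ?_, fun x => ?_, fun i j => ?_⟩
  · apply hf.lt_iff_lt.mp
    rw [hk, hk]
    exact hg hij
  · rw [mem_filter]
    constructor
    · rintro ⟨_, h5⟩
      obtain ⟨i, hi⟩ := (h3 _).mp h5
      refine ⟨i, hf.injective ?_⟩
      rw [hk, hi]
    · rintro ⟨i, rfl⟩
      refine ⟨mem_univ _, ?_⟩
      rw [hk]
      exact (h3 _).mpr ⟨i, rfl⟩
  · rw [h4, h2, hk, hk]

/-- The pattern of a union of two disjoint sets is a merge. -/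
theorem merge_of_union {A B : Set P} {ρ π : P} {T S S' : Finset (Fin π.1)} (h : Sub ρ π T)
    (hS : S ⊆ T) (hS' : ∀ x, x ∈ S' ↔ x ∈ T ∧ x ∉ S) (hA : ∃ a ∈ A, Sub a π S)
    (hB : ∃ b ∈ B, Sub b π S') : ρ ∈ merge A B := by
  obtain ⟨f, hf, h1, h2⟩ := h
  obtain ⟨a, ha, ha'⟩ := hA
  obtain ⟨b, hb, hb'⟩ := hB
  refine ⟨univ.filter (fun i => f i ∈ S), ⟨a, ha, sub_of_subset hf h1 h2 hS ha'⟩, b, hb, ?_⟩
  have h3 := sub_of_subset hf h1 h2 (fun x hx => ((hS' x).mp hx).1) hb'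
  have h4 : (univ.filter (fun i => f i ∈ S))ᶜ = univ.filter (fun i => f i ∈ S') := by
    ext i
    rw [mem_compl, mem_filter, mem_filter, hS']
    constructor
    · intro h5
      exact ⟨mem_univ _, (h1 _).mpr ⟨i, rfl⟩, fun h6 => h5 ⟨mem_univ _, h6⟩⟩
    · rintro ⟨_, _, h5⟩ ⟨_, h6⟩
      exact h5 h6
  rw [h4]
  exact h3

theorem merge_of_subset {A B : Set P} {π : P} {S : Finset (Fin π.1)} (hA : ∃ a ∈ A, Sub a π S)
    (hB : ∃ b ∈ B, Sub b π Sᶜ) : π ∈ merge A B := ⟨S, hA, hB⟩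

theorem len_merge {σ τ π : P} {S : Finset (Fin π.1)} (h : Sub σ π S) (h' : Sub τ π Sᶜ) :
    π.1 = σ.1 + τ.1 := by
  rw [h.card, h'.card, card_add_card_compl, Fintype.card_fin]

/-- Increasing. -/
def Inc (π : P) : Prop := ∀ i j, i < j → π.2 i < π.2 j

/-- Decreasing. -/
def Dec (π : P) : Prop := ∀ i j, i < j → π.2 j < π.2 i

theorem inc_of_contains {σ π : P} (h : Contains σ π) (hπ : Inc π) : Inc σ := by
  obtain ⟨f, hf, h1⟩ := h
  exact fun i j hij => (h1 i j).mpr (hπ _ _ (hf hij))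

theorem dec_of_contains {σ π : P} (h : Contains σ π) (hπ : Dec π) : Dec σ := by
  obtain ⟨f, hf, h1⟩ := h
  exact fun i j hij => (h1 j i).mpr (hπ _ _ (hf hij))

theorem inc_of_le_one {π : P} (h : π.1 ≤ 1) : Inc π := fun i j hij => by
  have := j.is_lt
  have := Fin.lt_def.mp hij
  omega

theorem dec_of_le_one {π : P} (h : π.1 ≤ 1) : Dec π := fun i j hij => by
  have := j.is_lt
  have := Fin.lt_def.mp hij
  omega

theorem inc_eq {σ τ : P} (h : σ.1 = τ.1) (h1 : Inc σ) (h2 : Inc τ) : σ = τ := by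
  obtain ⟨n, σ⟩ := σ
  obtain ⟨m, τ⟩ := τ
  simp only at h
  subst h
  have h3 : σ = τ := by
    apply perm_eq_of_order
    intro i j
    have h4 : StrictMono σ := fun i j hij => h1 i j hij
    have h5 : StrictMono τ := fun i j hij => h2 i j hij
    rw [h4.lt_iff_lt, h5.lt_iff_lt]
  rw [h3]

theorem dec_eq {σ τ : P} (h : σ.1 = τ.1) (h1 : Dec σ) (h2 : Dec τ) : σ = τ := by
  obtain ⟨n, σ⟩ := σ
  obtain ⟨m, τ⟩ := τ
  simp only at h
  subst h
  have h3 : σ = τ := by
    apply perm_eq_of_order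
    intro i j
    have h4 : StrictAnti σ := fun i j hij => h1 i j hij
    have h5 : StrictAnti τ := fun i j hij => h2 i j hij
    rw [h4.lt_iff_gt, h5.lt_iff_gt]
  rw [h3]

theorem inc_or_dec {π : P} (h : π.1 ≤ 2) : Inc π ∨ Dec π := by
  by_cases h1 : π.1 ≤ 1
  · exact Or.inl (inc_of_le_one h1)
  · have h2 : (⟨0, by omega⟩ : Fin π.1) ≠ ⟨1, by omega⟩ := by
      intro h
      have := congrArg Fin.val h
      simp at this
    have key : ∀ i j : Fin π.1, i < j → i = ⟨0, by omega⟩ ∧ j = ⟨1, by omega⟩ := by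
      intro i j hij
      have := j.is_lt
      have := Fin.lt_def.mp hij
      exact ⟨Fin.ext (by show (i : ℕ) = 0; omega), Fin.ext (by show (j : ℕ) = 1; omega)⟩
    rcases lt_or_gt_of_ne (fun h => h2 (π.2.injective h)) with h3 | h3
    · left
      intro i j hij
      obtain ⟨rfl, rfl⟩ := key i j hij
      exact h3
    · right
      intro i j hij
      obtain ⟨rfl, rfl⟩ := key i j hij
      exact h3

/-- The increasing permutation. -/
def io (n : ℕ) : P := ⟨n, 1⟩

/-- The decreasing permutation. -/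
def de (n : ℕ) : P := ⟨n, Fin.revPerm⟩

theorem inc_io (n : ℕ) : Inc (io n) := fun _ _ h => h

theorem dec_de (n : ℕ) : Dec (de n) := fun _ _ h => Fin.rev_lt_rev.mpr h

/-- Every length below occurs in a class. -/
theorem exists_len {C : Set P} (hC : IsClass C) {π : P} (hπ : π ∈ C) {k : ℕ} (hk : k ≤ π.1) :
    ∃ σ ∈ C, σ.1 = k := by
  obtain ⟨S, hS⟩ := exists_subset_card_eq (s := (univ : Finset (Fin π.1))) (n := k) (by
    rw [card_univ, Fintype.card_fin]
    exact hk)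
  obtain ⟨σ, hσ⟩ := exists_sub π S
  exact ⟨σ, hC.2 π hπ σ hσ.contains, by rw [hσ.card, hS.2]⟩

theorem merge_inc {A B : Set P} {a b : ℕ} (ha : io a ∈ A)
    (hb : io b ∈ B) : io (a + b) ∈ merge A B := by
  obtain ⟨S, hS⟩ := exists_subset_card_eq (s := (univ : Finset (Fin (io (a + b)).1))) (n := a) (by
    rw [card_univ, Fintype.card_fin]
    exact Nat.le_add_right _ _)
  obtain ⟨σ, hσ⟩ := exists_sub (io (a + b)) S
  obtain ⟨τ, hτ⟩ := exists_sub (io (a + b)) Sᶜ
  have h1 : σ = io a := inc_eq (by rw [hσ.card, hS.2]; rfl)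
    (inc_of_contains hσ.contains (inc_io _)) (inc_io _)
  have h2 : τ = io b := inc_eq (by
    have h3 := len_merge hσ hτ
    rw [hσ.card, hS.2] at h3
    have h4 : (io (a + b)).1 = a + b := rfl
    have h5 : (io b).1 = b := rfl
    omega) (inc_of_contains hτ.contains (inc_io _)) (inc_io _)
  exact ⟨S, ⟨io a, ha, h1 ▸ hσ⟩, io b, hb, h2 ▸ hτ⟩

theorem merge_dec {A B : Set P} {a b : ℕ} (ha : de a ∈ A)
    (hb : de b ∈ B) : de (a + b) ∈ merge A B := by
  obtain ⟨S, hS⟩ := exists_subset_card_eq (s := (univ : Finset (Fin (de (a + b)).1))) (n := a) (by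
    rw [card_univ, Fintype.card_fin]
    exact Nat.le_add_right _ _)
  obtain ⟨σ, hσ⟩ := exists_sub (de (a + b)) S
  obtain ⟨τ, hτ⟩ := exists_sub (de (a + b)) Sᶜ
  have h1 : σ = de a := dec_eq (by rw [hσ.card, hS.2]; rfl)
    (dec_of_contains hσ.contains (dec_de _)) (dec_de _)
  have h2 : τ = de b := dec_eq (by
    have h3 := len_merge hσ hτ
    rw [hσ.card, hS.2] at h3
    have h4 : (de (a + b)).1 = a + b := rfl
    have h5 : (de b).1 = b := rfl
    omega) (dec_of_contains hτ.contains (dec_de _)) (dec_de _)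
  exact ⟨S, ⟨de a, ha, h1 ▸ hσ⟩, de b, hb, h2 ▸ hτ⟩

theorem contains_of_range {ρ π a : P} {S : Finset (Fin π.1)} (h : Sub a π S)
    (g : Fin ρ.1 → Fin π.1) (hg : StrictMono g) (hS : ∀ i, g i ∈ S)
    (h2 : ∀ i j, ρ.2 i < ρ.2 j ↔ π.2 (g i) < π.2 (g j)) : Contains ρ a := by
  obtain ⟨f, hf, h3, h4⟩ := h
  have hch : ∀ i, ∃ k, f k = g i := fun i => (h3 _).mp (hS i)
  choose k hk using hch
  refine ⟨k, fun i j hij => ?_, fun i j => ?_⟩
  · apply hf.lt_iff_lt.mp
    rw [hk, hk]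
    exact hg hij
  · rw [h2, h4, hk, hk]

theorem isClass_merge {A B : Set P} (hA : IsClass A) (hB : IsClass B) : IsClass (merge A B) := by
  constructor
  · refine ⟨∅, ⟨_, hA.1, sub_empty _⟩, _, hB.1, ?_⟩
    have h : (∅ : Finset (Fin (⟨0, 1⟩ : P).1))ᶜ = ∅ := by
      ext x
      exact x.elim0
    rw [h]
    exact sub_empty _
  · rintro π ⟨S, ⟨a, ha, ha'⟩, b, hb, hb'⟩ σ ⟨f, hf, h1⟩
    obtain ⟨T, hT⟩ : ∃ T : Finset (Fin σ.1), T = univ.filter (fun i => f i ∈ S) := ⟨_, rfl⟩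
    have key : ∀ (U : Finset (Fin σ.1)) (V : Finset (Fin π.1)) (A : Set P) (a : P), IsClass A →
        a ∈ A → Sub a π V → (∀ i ∈ U, f i ∈ V) → ∃ a' ∈ A, Sub a' σ U := by
      intro U V A a hA ha ha' hUV
      obtain ⟨a', h2⟩ := exists_sub σ U
      refine ⟨a', hA.2 a ha a' ?_, h2⟩
      obtain ⟨g, hg, h3, h4⟩ := h2
      exact contains_of_range ha' (f ∘ g) (hf.comp hg) (fun i => hUV _ ((h3 _).mpr ⟨i, rfl⟩))
        (fun i j => (h4 i j).trans (h1 _ _))
    refine ⟨T, key T S A a hA ha ha' (fun i hi => ?_), key Tᶜ Sᶜ B b hB hb hb' (fun i hi => ?_)⟩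
    · rw [hT, mem_filter] at hi
      exact hi.2
    · rw [hT, mem_compl, mem_filter] at hi
      rw [mem_compl]
      exact fun h => hi ⟨mem_univ _, h⟩

theorem subset_merge_left {A B : Set P} (hB : IsClass B) : A ⊆ merge A B := by
  intro π hπ
  refine ⟨univ, ⟨π, hπ, sub_self π⟩, _, hB.1, ?_⟩
  rw [compl_univ]
  exact sub_empty π

theorem subset_merge_right {A B : Set P} (hA : IsClass A) : B ⊆ merge A B := by
  intro π hπ
  refine ⟨∅, ⟨_, hA.1, sub_empty π⟩, π, hπ, ?_⟩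
  rw [compl_empty]
  exact sub_self π

theorem Sub.eq_of_compl_zero {σ τ π : P} {S : Finset (Fin π.1)} (h : Sub σ π S)
    (h' : Sub τ π Sᶜ) (h0 : τ.1 = 0) : σ = π := by
  have h1 := h'.card
  rw [h0] at h1
  have h2 : Sᶜ = ∅ := card_eq_zero.mp h1.symm
  have h3 : S = univ := by
    rw [← compl_compl S, h2, compl_empty]
  rw [h3] at h
  exact h.eq_of_univ

theorem one_mem {A : Set P} (hA : IsClass A) {π : P} (hπ : π ∈ A) (h : 1 ≤ π.1) :
    io 1 ∈ A ∧ de 1 ∈ A := by
  obtain ⟨σ, hσ, h1⟩ := exists_len hA hπ h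
  refine ⟨?_, ?_⟩
  · rwa [← inc_eq (σ := σ) (τ := io 1) h1 (inc_of_le_one (by omega)) (inc_io 1)]
  · rwa [← dec_eq (σ := σ) (τ := de 1) h1 (dec_of_le_one (by omega)) (dec_de 1)]

theorem split_left {C A B : Set P} (h : ExactSplit C A B) : io 1 ∈ A ∧ de 1 ∈ A := by
  obtain ⟨hA, hB, h1, h2, h3⟩ := h
  by_cases h4 : ∃ π ∈ A, 1 ≤ π.1
  · obtain ⟨π, h5, h6⟩ := h4
    exact one_mem hA h5 h6
  · exfalso
    push Not at h4
    apply h2.2
    intro π hπ
    rw [h3] at hπ
    obtain ⟨S, ⟨a, ha, ha'⟩, b, hb, hb'⟩ := hπ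
    have h5 := h4 a ha
    have h6 : b = π := by
      apply Sub.eq_of_compl_zero hb' (τ := a)
      · rwa [compl_compl]
      · omega
    rwa [← h6]

theorem split_right {C A B : Set P} (h : ExactSplit C A B) : io 1 ∈ B ∧ de 1 ∈ B := by
  obtain ⟨hA, hB, h1, h2, h3⟩ := h
  by_cases h4 : ∃ π ∈ B, 1 ≤ π.1
  · obtain ⟨π, h5, h6⟩ := h4
    exact one_mem hB h5 h6
  · exfalso
    push Not at h4
    apply h1.2
    intro π hπ
    rw [h3] at hπ
    obtain ⟨S, ⟨a, ha, ha'⟩, b, hb, hb'⟩ := hπ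
    have h5 := h4 b hb
    have h6 : a = π := Sub.eq_of_compl_zero ha' hb' (by omega)
    rwa [← h6]

/-- A class without `12` or without `21` is not exact-splittable. -/
theorem not_splittable {C : Set P} (h : io 2 ∉ C ∨ de 2 ∉ C) : ¬ ExactSplittable C := by
  rintro ⟨A, B, hs⟩
  have h1 := split_left hs
  have h2 := split_right hs
  obtain ⟨hA, hB, _, _, h3⟩ := hs
  rcases h with h | h
  · apply h
    rw [h3]
    exact merge_inc h1.1 h2.1
  · apply h
    rw [h3]
    exact merge_dec h1.2 h2.2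

/-! ### the classes -/

/-- Increasing permutations. -/
def I : Set P := {π | Inc π}

/-- Length at most one. -/
def G1 : Set P := {π | π.1 ≤ 1}

/-- The permutations contained in `12`. -/
def G12 : Set P := {π | π.1 ≤ 2 ∧ Inc π}

/-- The permutations contained in `21`. -/
def G21 : Set P := {π | π.1 ≤ 2 ∧ Dec π}

/-- The permutations contained in `132`, `213`, `231` or `312`. -/
def G3 : Set P := {π | π.1 ≤ 3 ∧ (π.1 = 3 → ¬ Inc π ∧ ¬ Dec π)}

theorem contains_len {σ π : P} (h : Contains σ π) : σ.1 ≤ π.1 := by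
  obtain ⟨f, hf, _⟩ := h
  have := Fintype.card_le_of_injective f hf.injective
  rwa [Fintype.card_fin, Fintype.card_fin] at this

theorem class_I : IsClass I :=
  ⟨inc_of_le_one (Nat.zero_le 1), fun _ hπ _ h => inc_of_contains h hπ⟩

theorem class_G1 : IsClass G1 :=
  ⟨Nat.zero_le 1, fun _ hπ _ h => le_trans (contains_len h) hπ⟩

theorem class_G12 : IsClass G12 :=
  ⟨⟨Nat.zero_le 2, inc_of_le_one (Nat.zero_le 1)⟩, fun _ hπ _ h =>
    ⟨le_trans (contains_len h) hπ.1, inc_of_contains h hπ.2⟩⟩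

theorem class_G21 : IsClass G21 :=
  ⟨⟨Nat.zero_le 2, dec_of_le_one (Nat.zero_le 1)⟩, fun _ hπ _ h =>
    ⟨le_trans (contains_len h) hπ.1, dec_of_contains h hπ.2⟩⟩

theorem class_G3 : IsClass G3 := by
  refine ⟨⟨Nat.zero_le 3, fun h => absurd h (by norm_num)⟩, fun π hπ σ h => ?_⟩
  have h1 := contains_len h
  refine ⟨le_trans h1 hπ.1, fun h3 => ?_⟩
  have h4 : σ = π := by
    obtain ⟨τ, hτ⟩ := exists_sub π univ
    have h5 := hτ.eq_of_univ
    obtain ⟨f, hf, h6⟩ := h
    apply Sub.eq_of_univ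
    refine ⟨f, hf, fun x => ⟨fun _ => ?_, fun _ => mem_univ x⟩, h6⟩
    have h7 : Function.Bijective f := by
      rw [Fintype.bijective_iff_injective_and_card]
      refine ⟨hf.injective, ?_⟩
      rw [Fintype.card_fin, Fintype.card_fin]
      have := hπ.1
      omega
    exact h7.2 x
  rw [h4]
  rw [h4] at h3
  exact hπ.2 h3

theorem not_dec_io {n : ℕ} (h : 2 ≤ n) : ¬ Dec (io n) := fun h1 => by
  have h2 := h1 ⟨0, by show 0 < n; omega⟩ ⟨1, by show 1 < n; omega⟩ (Fin.mk_lt_mk.mpr Nat.one_pos)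
  have h3 : (1 : ℕ) < 0 := h2
  omega

theorem not_inc_de {n : ℕ} (h : 2 ≤ n) : ¬ Inc (de n) := fun h1 => by
  have h2 := h1 ⟨0, by show 0 < n; omega⟩ ⟨1, by show 1 < n; omega⟩ (Fin.mk_lt_mk.mpr Nat.one_pos)
  have h3 := dec_de n ⟨0, by show 0 < n; omega⟩ ⟨1, by show 1 < n; omega⟩
    (Fin.mk_lt_mk.mpr Nat.one_pos)
  exact absurd h2 (lt_asymm h3)

theorem irr_I : ¬ ExactSplittable I := not_splittable (Or.inr (not_inc_de le_rfl))

theorem irr_G1 : ¬ ExactSplittable G1 := not_splittable (Or.inl (fun h => by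
  have h1 : (2 : ℕ) ≤ 1 := h
  omega))

theorem irr_G12 : ¬ ExactSplittable G12 :=
  not_splittable (Or.inr (fun h => not_inc_de le_rfl h.2))

theorem irr_G21 : ¬ ExactSplittable G21 :=
  not_splittable (Or.inl (fun h => not_dec_io le_rfl h.2))

/-- A non-monotone permutation of length three. -/
theorem exists_three : ∃ π ∈ G3, π.1 = 3 := by
  refine ⟨⟨3, Equiv.swap 0 1⟩, ⟨le_rfl, fun _ => ⟨fun h => ?_, fun h => ?_⟩⟩, rfl⟩
  · exact absurd (h 0 1 (by decide)) (by decide)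
  · exact absurd (h 1 2 (by decide)) (by decide)

theorem irr_G3 : ¬ ExactSplittable G3 := by
  rintro ⟨A, B, hs⟩
  have h1 := split_left hs
  have h2 := split_right hs
  obtain ⟨hA, hB, _, _, h3⟩ := hs
  have hio : io 3 ∉ G3 := fun h => (h.2 rfl).1 (inc_io 3)
  have hde : de 3 ∉ G3 := fun h => (h.2 rfl).2 (dec_de 3)
  have hA1 : ∀ a ∈ A, a.1 ≤ 1 := by
    intro a ha
    by_contra h4
    obtain ⟨σ, hσ, h5⟩ := exists_len hA ha (k := 2) (by omega)
    rcases inc_or_dec (π := σ) (by omega) with h6 | h6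
    · apply hio
      rw [h3]
      rw [inc_eq (τ := io 2) h5 h6 (inc_io 2)] at hσ
      exact merge_inc hσ h2.1
    · apply hde
      rw [h3]
      rw [dec_eq (τ := de 2) h5 h6 (dec_de 2)] at hσ
      exact merge_dec hσ h2.2
  have hB1 : ∀ a ∈ B, a.1 ≤ 1 := by
    intro a ha
    by_contra h4
    obtain ⟨σ, hσ, h5⟩ := exists_len hB ha (k := 2) (by omega)
    rcases inc_or_dec (π := σ) (by omega) with h6 | h6
    · apply hio
      rw [h3]
      rw [inc_eq (τ := io 2) h5 h6 (inc_io 2)] at hσ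
      exact merge_inc (a := 1) (b := 2) h1.1 hσ
    · apply hde
      rw [h3]
      rw [dec_eq (τ := de 2) h5 h6 (dec_de 2)] at hσ
      exact merge_dec (a := 1) (b := 2) h1.2 hσ
  obtain ⟨π, hπ, h4⟩ := exists_three
  rw [h3] at hπ
  obtain ⟨S, ⟨a, ha, ha'⟩, b, hb, hb'⟩ := hπ
  have h5 := len_merge ha' hb'
  have h6 := hA1 a ha
  have h7 := hB1 b hb
  omega

/-! ### lengths -/

/-- The largest length in the class is `l`. -/
def MaxLen (A : Set P) (l : ℕ) : Prop := (∀ π ∈ A, π.1 ≤ l) ∧ ∃ π ∈ A, π.1 = l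

theorem maxLen_merge {A B : Set P} {a b : ℕ} (hA : MaxLen A a) (hB : MaxLen B b) :
    MaxLen (merge A B) (a + b) := by
  constructor
  · rintro π ⟨S, ⟨σ, hσ, h1⟩, τ, hτ, h2⟩
    have := hA.1 σ hσ
    have := hB.1 τ hτ
    have := len_merge h1 h2
    omega
  · obtain ⟨σ, hσ, h1⟩ := hA.2
    obtain ⟨τ, hτ, h2⟩ := hB.2
    obtain ⟨m, σ⟩ := σ
    obtain ⟨k, τ⟩ := τ
    simp only at h1 h2
    subst h1
    subst h2
    obtain ⟨e, he⟩ : ∃ e : Equiv.Perm (Fin (m + k)), e = finSumFinEquiv.symm.trans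
      ((Equiv.sumCongr σ τ).trans finSumFinEquiv) := ⟨_, rfl⟩
    have h3 : ∀ i, e (Fin.castAdd k i) = Fin.castAdd k (σ i) := by
      intro i
      rw [he]
      simp
    have h4 : ∀ i, e (Fin.natAdd m i) = Fin.natAdd m (τ i) := by
      intro i
      rw [he]
      simp
    refine ⟨⟨m + k, e⟩, ⟨univ.filter (fun x => (x : ℕ) < m), ⟨_, hσ, Fin.castAdd k, ?_, ?_, ?_⟩,
      _, hτ, Fin.natAdd m, ?_, ?_, ?_⟩, rfl⟩
    · exact Fin.strictMono_castAdd k
    · intro x
      rw [mem_filter]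
      constructor
      · rintro ⟨_, hx⟩
        exact ⟨⟨x, hx⟩, Fin.ext rfl⟩
      · rintro ⟨i, rfl⟩
        exact ⟨mem_univ _, i.is_lt⟩
    · intro i j
      show σ i < σ j ↔ e _ < e _
      rw [h3, h3]
      exact Iff.rfl
    · exact Fin.strictMono_natAdd m
    · intro x
      rw [mem_compl, mem_filter]
      constructor
      · intro hx
        have hx' : m ≤ (x : ℕ) := by
          by_contra h
          exact hx ⟨mem_univ _, by omega⟩
        have hx2 : (x : ℕ) < m + k := x.is_lt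
        exact ⟨(⟨(x : ℕ) - m, by omega⟩ : Fin k), Fin.ext (by
          show m + ((x : ℕ) - m) = x
          omega)⟩
      · rintro ⟨i, rfl⟩ ⟨_, h⟩
        have : m + (i : ℕ) < m := h
        omega
    · intro i j
      show τ i < τ j ↔ e _ < e _
      rw [h4, h4]
      exact (Fin.strictMono_natAdd m).lt_iff_lt.symm

theorem exactSplit_of_maxLen {A B : Set P} {a b : ℕ} (cA : IsClass A) (cB : IsClass B)
    (hA : MaxLen A a) (hB : MaxLen B b) (ha : 1 ≤ a) (hb : 1 ≤ b) :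
    ExactSplit (merge A B) A B := by
  obtain ⟨π, hπ, h1⟩ := (maxLen_merge hA hB).2
  refine ⟨cA, cB, ⟨subset_merge_left cB, fun h => ?_⟩, ⟨subset_merge_right cA, fun h => ?_⟩, rfl⟩
  · have := hA.1 π (h hπ)
    omega
  · have := hB.1 π (h hπ)
    omega

theorem maxLen_G1 : MaxLen G1 1 := ⟨fun _ h => h, io 1, le_refl 1, rfl⟩

theorem maxLen_G12 : MaxLen G12 2 := ⟨fun _ h => h.1, io 2, ⟨le_rfl, inc_io 2⟩, rfl⟩

theorem maxLen_G21 : MaxLen G21 2 := ⟨fun _ h => h.1, de 2, ⟨le_rfl, dec_de 2⟩, rfl⟩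

theorem maxLen_G3 : MaxLen G3 3 := ⟨fun _ h => h.1, exists_three⟩

/-! ### the two products -/

theorem inc_of_sub {a π : P} {S : Finset (Fin π.1)} (h : Sub a π S)
    (hS : ∀ u ∈ S, ∀ v ∈ S, u < v → π.2 u < π.2 v) : Inc a := by
  obtain ⟨f, hf, h1, h2⟩ := h
  exact fun i j hij => (h2 i j).mpr (hS _ ((h1 _).mpr ⟨i, rfl⟩) _ ((h1 _).mpr ⟨j, rfl⟩) (hf hij))

theorem dec_of_sub {a π : P} {S : Finset (Fin π.1)} (h : Sub a π S)
    (hS : ∀ u ∈ S, ∀ v ∈ S, u < v → π.2 v < π.2 u) : Dec a := by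
  obtain ⟨f, hf, h1, h2⟩ := h
  exact fun i j hij => (h2 j i).mpr (hS _ ((h1 _).mpr ⟨i, rfl⟩) _ ((h1 _).mpr ⟨j, rfl⟩) (hf hij))

theorem sub_inc {a π : P} {S : Finset (Fin π.1)} (h : Sub a π S) (ha : Inc a) :
    ∀ u ∈ S, ∀ v ∈ S, u < v → π.2 u < π.2 v := by
  obtain ⟨f, hf, h1, h2⟩ := h
  intro u hu v hv huv
  obtain ⟨i, rfl⟩ := (h1 u).mp hu
  obtain ⟨j, rfl⟩ := (h1 v).mp hv
  exact (h2 i j).mp (ha i j (hf.lt_iff_lt.mp huv))

theorem sub_dec {a π : P} {S : Finset (Fin π.1)} (h : Sub a π S) (ha : Dec a) :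
    ∀ u ∈ S, ∀ v ∈ S, u < v → π.2 v < π.2 u := by
  obtain ⟨f, hf, h1, h2⟩ := h
  intro u hu v hv huv
  obtain ⟨i, rfl⟩ := (h1 u).mp hu
  obtain ⟨j, rfl⟩ := (h1 v).mp hv
  exact (h2 j i).mp (ha i j (hf.lt_iff_lt.mp huv))

/-- `r` additional single entries. -/
def N : ℕ → Set P → Set P
  | 0, X => X
  | r + 1, X => merge G1 (N r X)

theorem mem_N (X : Set P) : ∀ r (π : P) (T : Finset (Fin π.1)), (∃ τ ∈ X, Sub τ π T) →
    Tᶜ.card ≤ r → π ∈ N r X := by
  intro r
  induction r with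
  | zero =>
    rintro π T ⟨τ, hτ, h1⟩ h2
    have h3 : Tᶜ = ∅ := card_eq_zero.mp (Nat.le_zero.mp h2)
    have h4 : T = univ := by rw [← compl_compl T, h3, compl_empty]
    rw [h4] at h1
    show π ∈ X
    rwa [← h1.eq_of_univ]
  | succ r ih =>
    rintro π T ⟨τ, hτ, h1⟩ h2
    show π ∈ merge G1 (N r X)
    by_cases h3 : Tᶜ = ∅
    · refine ⟨∅, ⟨_, class_G1.1, sub_empty π⟩, π, ih π T ⟨τ, hτ, h1⟩ ?_, ?_⟩
      · rw [h3]
        exact Nat.zero_le r
      · rw [compl_empty]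
        exact sub_self π
    · obtain ⟨x, hx⟩ := nonempty_of_ne_empty h3
      obtain ⟨σ, hσ⟩ := exists_sub π {x}
      obtain ⟨ρ, hρ⟩ := exists_sub π {x}ᶜ
      refine ⟨{x}, ⟨σ, ?_, hσ⟩, ρ, ?_, hρ⟩
      · have h4 := hσ.card
        rw [card_singleton] at h4
        exact h4.le
      · have h4 := hρ.card
        obtain ⟨f, hf, h5, h6⟩ := hρ
        have hT : T ⊆ {x}ᶜ := by
          intro y hy
          rw [mem_compl, mem_singleton]
          rintro rfl
          exact (mem_compl.mp hx) hy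
        have h7 := sub_of_subset hf h5 h6 hT h1
        refine ih ρ _ ⟨τ, hτ, h7⟩ ?_
        have h8 := h7.card
        have h9 := h1.card
        rw [card_compl, ← h8, Fintype.card_fin, h4, card_compl, card_singleton, Fintype.card_fin]
        rw [card_compl, Fintype.card_fin] at h2
        omega

/-- Length at most six, not monotone if the length is six. -/
def F : Set P := {π | π.1 ≤ 6 ∧ (π.1 = 6 → ¬ Inc π ∧ ¬ Dec π)}

theorem mem_merge_small {τ : P} (h : τ.1 ≤ 3) : τ ∈ merge G12 G21 := by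
  have key : ∀ S : Finset (Fin τ.1), S.card ≤ 1 → Sᶜ.card ≤ 1 → τ ∈ merge G12 G21 := by
    intro S h1 h2
    obtain ⟨a, ha⟩ := exists_sub τ S
    obtain ⟨b, hb⟩ := exists_sub τ Sᶜ
    have h3 := ha.card
    have h4 := hb.card
    exact ⟨S, ⟨a, ⟨by omega, inc_of_le_one (by omega)⟩, ha⟩, b,
      ⟨by omega, dec_of_le_one (by omega)⟩, hb⟩
  by_cases h1 : τ.1 ≤ 2
  · obtain ⟨S, hS⟩ := exists_subset_card_eq (s := (univ : Finset (Fin τ.1))) (n := τ.1 / 2) (by
      rw [card_univ, Fintype.card_fin]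
      omega)
    apply key S
    · omega
    · rw [card_compl, Fintype.card_fin]
      omega
  · obtain ⟨n, τ⟩ := τ
    have hn : n = 3 := by
      simp only at h h1
      omega
    subst hn
    have hpair : ∀ u ∈ ({0, 1} : Finset (Fin 3)), ∀ v ∈ ({0, 1} : Finset (Fin 3)), u < v →
        u = 0 ∧ v = 1 := by decide
    obtain ⟨a, ha⟩ := exists_sub ⟨3, τ⟩ ({0, 1} : Finset (Fin 3))
    obtain ⟨b, hb⟩ := exists_sub ⟨3, τ⟩ ({0, 1} : Finset (Fin 3))ᶜ
    have h3 : a.1 = 2 := ha.card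
    have h4 : b.1 = 1 := hb.card
    by_cases h5 : τ 0 < τ 1
    · refine ⟨({0, 1} : Finset (Fin 3)), ⟨a, ⟨h3.le, inc_of_sub ha ?_⟩, ha⟩, b,
        ⟨by omega, dec_of_le_one (by omega)⟩, hb⟩
      intro u hu v hv huv
      obtain ⟨rfl, rfl⟩ := hpair u hu v hv huv
      exact h5
    · refine ⟨({0, 1} : Finset (Fin 3))ᶜ, ⟨b, ⟨by omega, inc_of_le_one (by omega)⟩, hb⟩, a,
        ⟨h3.le, dec_of_sub ha ?_⟩, ?_⟩
      · intro u hu v hv huv
        obtain ⟨rfl, rfl⟩ := hpair u hu v hv huv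
        have h6 : τ 0 ≠ τ 1 := fun h => absurd (τ.injective h) (by decide)
        exact lt_of_le_of_ne (not_lt.mp h5) h6.symm
      · rw [compl_compl]
        exact ha

theorem bool_far : ∀ b : Fin 5 → Bool, (∃ i, b i = true) → (∃ i, b i = false) →
    ∃ i j : Fin 5, b i = true ∧ b j = false ∧ ((i : ℕ) + 2 ≤ j ∨ (j : ℕ) + 2 ≤ i) := by
  decide

theorem bool_near : ∀ b : Fin 5 → Bool, (∃ i, b i = true) → (∃ i, b i = false) →
    ∃ i : Fin 4, b i.castSucc ≠ b i.succ := by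
  decide

theorem exists_asc_desc {τ : Equiv.Perm (Fin 6)} (h1 : ¬ Inc ⟨6, τ⟩) (h2 : ¬ Dec ⟨6, τ⟩) :
    (∃ i : Fin 5, decide (τ i.castSucc < τ i.succ) = true) ∧
      ∃ i : Fin 5, decide (τ i.castSucc < τ i.succ) = false := by
  constructor
  · by_contra h
    push Not at h
    apply h2
    have h3 : StrictAnti τ := by
      rw [Fin.strictAnti_iff_succ_lt]
      intro i
      have h4 := h i
      rw [Ne, decide_eq_true_iff] at h4
      refine lt_of_le_of_ne (not_lt.mp h4) (fun h5 => ?_)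
      have := congrArg Fin.val (τ.injective h5)
      simp at this
    exact fun i j hij => h3 hij
  · by_contra h
    push Not at h
    apply h1
    have h3 : StrictMono τ := by
      rw [Fin.strictMono_iff_lt_succ]
      intro i
      have h4 := h i
      rw [Ne, decide_eq_false_iff_not, not_not] at h4
      exact h4
    exact fun i j hij => h3 hij

theorem F_sub_one : F ⊆ N 2 (merge G12 G21) := by
  rintro ⟨n, τ⟩ ⟨h1, h2⟩
  by_cases h3 : n ≤ 5
  · obtain ⟨S, hS⟩ := exists_subset_card_eq (s := (univ : Finset (Fin n))) (n := min 3 n) (by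
      rw [card_univ, Fintype.card_fin]
      omega)
    obtain ⟨a, ha⟩ := exists_sub ⟨n, τ⟩ S
    have h4 : a.1 = min 3 n := ha.card.trans hS.2
    refine mem_N _ 2 _ S ⟨a, mem_merge_small (by omega), ha⟩ ?_
    rw [card_compl, hS.2]
    show Fintype.card (Fin n) - min 3 n ≤ 2
    rw [Fintype.card_fin]
    omega
  · have hn : n = 6 := by
      simp only at h1
      omega
    subst hn
    obtain ⟨h4, h5⟩ := h2 rfl
    obtain ⟨h6, h7⟩ := exists_asc_desc h4 h5
    obtain ⟨i, j, hi, hj, hij⟩ := bool_far _ h6 h7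
    rw [decide_eq_true_iff] at hi
    rw [decide_eq_false_iff_not] at hj
    have hi' := i.is_lt
    have hj' := j.is_lt
    obtain ⟨ρ, hρ⟩ := exists_sub ⟨6, τ⟩ ({i.castSucc, i.succ, j.castSucc, j.succ} : Finset (Fin 6))
    obtain ⟨a, ha⟩ := exists_sub ⟨6, τ⟩ ({i.castSucc, i.succ} : Finset (Fin 6))
    obtain ⟨b, hb⟩ := exists_sub ⟨6, τ⟩ ({j.castSucc, j.succ} : Finset (Fin 6))
    have hpair : ∀ (i : Fin 5) (u v : Fin 6), u ∈ ({i.castSucc, i.succ} : Finset (Fin 6)) →
        v ∈ ({i.castSucc, i.succ} : Finset (Fin 6)) → u < v → u = i.castSucc ∧ v = i.succ := by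
      intro i u v hu hv huv
      rw [mem_insert, mem_singleton] at hu hv
      rcases hu with rfl | rfl <;> rcases hv with rfl | rfl
      · exact absurd huv (lt_irrefl _)
      · exact ⟨rfl, rfl⟩
      · have := Fin.lt_def.mp huv
        simp at this
      · exact absurd huv (lt_irrefl _)
    have hcard2 : ∀ i : Fin 5, ({i.castSucc, i.succ} : Finset (Fin 6)).card = 2 := by decide
    have ha2 : a.1 = 2 := ha.card.trans (hcard2 i)
    have hb2 : b.1 = 2 := hb.card.trans (hcard2 j)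
    have haI : a ∈ G12 := by
      refine ⟨ha2.le, inc_of_sub ha ?_⟩
      intro u hu v hv huv
      obtain ⟨rfl, rfl⟩ := hpair i u v hu hv huv
      exact hi
    have hbD : b ∈ G21 := by
      refine ⟨hb2.le, dec_of_sub hb ?_⟩
      intro u hu v hv huv
      obtain ⟨rfl, rfl⟩ := hpair j u v hu hv huv
      refine lt_of_le_of_ne (not_lt.mp hj) (fun h5 => ?_)
      have := congrArg Fin.val (τ.injective h5)
      simp at this
    have hρ' : ρ ∈ merge G12 G21 := by
      refine merge_of_union hρ (S := ({i.castSucc, i.succ} : Finset (Fin 6)))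
        (S' := ({j.castSucc, j.succ} : Finset (Fin 6))) ?_ ?_ ⟨a, haI, ha⟩ ⟨b, hbD, hb⟩
      · intro x hx
        rw [mem_insert, mem_singleton] at hx
        rcases hx with rfl | rfl <;> simp
      · intro x
        simp only [mem_insert, mem_singleton, Fin.ext_iff, Fin.val_castSucc, Fin.val_succ]
        omega
    refine mem_N _ 2 _ _ ⟨ρ, hρ', hρ⟩ ?_
    have hcard4 : ∀ i j : Fin 5, ((i : ℕ) + 2 ≤ j ∨ (j : ℕ) + 2 ≤ i) →
        ({i.castSucc, i.succ, j.castSucc, j.succ} : Finset (Fin 6))ᶜ.card ≤ 2 := by decide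
    exact hcard4 i j hij

theorem F_sub_two : F ⊆ N 3 G3 := by
  rintro ⟨n, τ⟩ ⟨h1, h2⟩
  by_cases h3 : n ≤ 5
  · obtain ⟨S, hS⟩ := exists_subset_card_eq (s := (univ : Finset (Fin n))) (n := min 2 n) (by
      rw [card_univ, Fintype.card_fin]
      omega)
    obtain ⟨a, ha⟩ := exists_sub ⟨n, τ⟩ S
    have h4 : a.1 = min 2 n := ha.card.trans hS.2
    refine mem_N _ 3 _ S ⟨a, ⟨by omega, fun h => by omega⟩, ha⟩ ?_
    rw [card_compl, hS.2]
    show Fintype.card (Fin n) - min 2 n ≤ 3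
    rw [Fintype.card_fin]
    omega
  · have hn : n = 6 := by
      simp only at h1
      omega
    subst hn
    obtain ⟨h4, h5⟩ := h2 rfl
    obtain ⟨h6, h7⟩ := exists_asc_desc h4 h5
    obtain ⟨i, hi⟩ := bool_near _ h6 h7
    obtain ⟨a, ha⟩ := exists_sub ⟨6, τ⟩
      ({i.castSucc.castSucc, i.castSucc.succ, i.succ.succ} : Finset (Fin 6))
    have hcard3 : ∀ i : Fin 4,
        ({i.castSucc.castSucc, i.castSucc.succ, i.succ.succ} : Finset (Fin 6)).card = 3 := by
      decide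
    have hcard3' : ∀ i : Fin 4,
        ({i.castSucc.castSucc, i.castSucc.succ, i.succ.succ} : Finset (Fin 6))ᶜ.card ≤ 3 := by
      decide
    have ha3 : a.1 = 3 := ha.card.trans (hcard3 i)
    have l1 : i.castSucc.castSucc < i.castSucc.succ := by
      rw [Fin.lt_def]
      simp
    have l2 : i.castSucc.succ < i.succ.succ := by
      rw [Fin.lt_def]
      simp
    have e1 : i.castSucc.succ = i.succ.castSucc := rfl
    have haG : a ∈ G3 := by
      refine ⟨ha3.le, fun _ => ⟨fun h => hi ?_, fun h => hi ?_⟩⟩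
      · have m1 := sub_inc ha h i.castSucc.castSucc (by simp) i.castSucc.succ (by simp) l1
        have m2 := sub_inc ha h i.castSucc.succ (by simp) i.succ.succ (by simp) l2
        rw [decide_eq_true m1]
        rw [e1] at m2
        exact (decide_eq_true m2).symm
      · have m1 := sub_dec ha h i.castSucc.castSucc (by simp) i.castSucc.succ (by simp) l1
        have m2 := sub_dec ha h i.castSucc.succ (by simp) i.succ.succ (by simp) l2
        rw [decide_eq_false (lt_asymm m1)]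
        rw [e1] at m2
        exact (decide_eq_false (lt_asymm m2)).symm
    exact mem_N _ 3 _ _ ⟨a, haG, ha⟩ (hcard3' i)

theorem one_sub_F : N 2 (merge G12 G21) ⊆ F := by
  rintro π ⟨S, ⟨a, ha, ha'⟩, b, ⟨S', ⟨c, hc, hc'⟩, d, ⟨S'', ⟨x, hx, hx'⟩, y, hy, hy'⟩, hd⟩, hb⟩
  have h1 := len_merge ha' hb
  have h2 := len_merge hc' hd
  have h3 := len_merge hx' hy'
  have h4 : a.1 ≤ 1 := ha
  have h5 : c.1 ≤ 1 := hc
  have h6 := hx.1
  have h7 := hy.1
  refine ⟨by omega, fun h8 => ⟨fun h9 => ?_, fun h9 => ?_⟩⟩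
  · have hyI : Inc y := inc_of_contains
      (contains_trans hy'.contains (contains_trans hd.contains hb.contains)) h9
    have h10 : y = de 2 := dec_eq (show y.1 = 2 by omega) hy.2 (dec_de 2)
    rw [h10] at hyI
    exact not_inc_de le_rfl hyI
  · have hxD : Dec x := dec_of_contains
      (contains_trans hx'.contains (contains_trans hd.contains hb.contains)) h9
    have h10 : x = io 2 := inc_eq (show x.1 = 2 by omega) hx.2 (inc_io 2)
    rw [h10] at hxD
    exact not_dec_io le_rfl hxD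

theorem two_sub_F : N 3 G3 ⊆ F := by
  rintro π ⟨S, ⟨a, ha, ha'⟩, b, ⟨S', ⟨c, hc, hc'⟩, d, ⟨S'', ⟨x, hx, hx'⟩, y, hy, hy'⟩, hd⟩, hb⟩
  have h1 := len_merge ha' hb
  have h2 := len_merge hc' hd
  have h3 := len_merge hx' hy'
  have h4 : a.1 ≤ 1 := ha
  have h5 : c.1 ≤ 1 := hc
  have h6 : x.1 ≤ 1 := hx
  have h7 : y.1 ≤ 3 := hy.1
  refine ⟨by omega, fun h8 => ⟨fun h9 => ?_, fun h9 => ?_⟩⟩
  · exact (hy.2 (by omega)).1 (inc_of_contains
      (contains_trans hy'.contains (contains_trans hd.contains hb.contains)) h9)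
  · exact (hy.2 (by omega)).2 (dec_of_contains
      (contains_trans hy'.contains (contains_trans hd.contains hb.contains)) h9)

theorem products_eq : N 2 (merge G12 G21) = N 3 G3 :=
  (one_sub_F.trans F_sub_two).antisymm (two_sub_F.trans F_sub_one)

theorem irr_one : IrrSplitting (N 2 (merge G12 G21)) ({G1} ∪ ({G1} ∪ ({G12} ∪ {G21}))) := by
  have c1 := isClass_merge class_G12 class_G21
  have c2 := isClass_merge class_G1 c1
  have c3 := isClass_merge class_G1 c2
  have m1 := maxLen_merge maxLen_G12 maxLen_G21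
  have m2 := maxLen_merge maxLen_G1 m1
  refine .split _ _ _ _ _ c3 (exactSplit_of_maxLen class_G1 c2 maxLen_G1 m2 le_rfl (by omega))
    (.irreducible _ class_G1 irr_G1) ?_
  refine .split _ _ _ _ _ c2 (exactSplit_of_maxLen class_G1 c1 maxLen_G1 m1 le_rfl (by omega))
    (.irreducible _ class_G1 irr_G1) ?_
  exact .split _ _ _ _ _ c1
    (exactSplit_of_maxLen class_G12 class_G21 maxLen_G12 maxLen_G21 (by omega) (by omega))
    (.irreducible _ class_G12 irr_G12) (.irreducible _ class_G21 irr_G21)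

theorem irr_two : IrrSplitting (N 3 G3) ({G1} ∪ ({G1} ∪ ({G1} ∪ {G3}))) := by
  have c1 := isClass_merge class_G1 class_G3
  have c2 := isClass_merge class_G1 c1
  have c3 := isClass_merge class_G1 c2
  have m1 := maxLen_merge maxLen_G1 maxLen_G3
  have m2 := maxLen_merge maxLen_G1 m1
  refine .split _ _ _ _ _ c3 (exactSplit_of_maxLen class_G1 c2 maxLen_G1 m2 le_rfl (by omega))
    (.irreducible _ class_G1 irr_G1) ?_
  refine .split _ _ _ _ _ c2 (exactSplit_of_maxLen class_G1 c1 maxLen_G1 m1 le_rfl (by omega))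
    (.irreducible _ class_G1 irr_G1) ?_
  exact .split _ _ _ _ _ c1
    (exactSplit_of_maxLen class_G1 class_G3 maxLen_G1 maxLen_G3 (by omega) (by omega))
    (.irreducible _ class_G1 irr_G1) (.irreducible _ class_G3 irr_G3)

/-- **Disproof of Q1.** There is an infinite permutation class with two different irreducible
exact-splittings. -/
theorem result : ∃ C : Set P, IsClass C ∧ C.Infinite ∧
    ∃ X Y : Set (Set P), IrrSplitting C X ∧ IrrSplitting C Y ∧ X ≠ Y := by
  obtain ⟨M, hM⟩ : ∃ M, M = N 2 (merge G12 G21) := ⟨_, rfl⟩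
  have cM : IsClass M := by
    rw [hM]
    exact isClass_merge class_G1 (isClass_merge class_G1 (isClass_merge class_G12 class_G21))
  have lM : MaxLen M 6 := by
    rw [hM]
    exact maxLen_merge maxLen_G1 (maxLen_merge maxLen_G1 (maxLen_merge maxLen_G12 maxLen_G21))
  have cC : IsClass (merge I M) := isClass_merge class_I cM
  have hs : ExactSplit (merge I M) I M := by
    refine ⟨class_I, cM, ⟨subset_merge_left cM, fun h => ?_⟩, ⟨subset_merge_right class_I,
      fun h => ?_⟩, rfl⟩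
    · obtain ⟨π, hπ, h1⟩ := lM.2
      have h2 : de 2 ∈ merge I M := merge_dec (a := 1) (b := 1)
        (one_mem class_I (inc_io 1 : io 1 ∈ I) le_rfl).2 (one_mem cM hπ (by omega)).2
      exact not_inc_de le_rfl (h h2)
    · have h1 := lM.1 (io 7) (h (subset_merge_left cM (inc_io 7)))
      have h2 : (io 7).1 = 7 := rfl
      omega
  refine ⟨merge I M, cC, ?_, _, _, .split _ _ _ _ _ cC hs (.irreducible _ class_I irr_I)
    (hM ▸ irr_one), .split _ _ _ _ _ cC hs (.irreducible _ class_I irr_I)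
    ((hM.trans products_eq) ▸ irr_two), ?_⟩
  · apply Set.infinite_of_injective_forall_mem (f := io)
    · intro a b h
      exact congrArg Sigma.fst h
    · exact fun n => subset_merge_left cM (inc_io n)
  · intro h
    have h1 : G3 ∈ ({I} ∪ ({G1} ∪ ({G1} ∪ ({G12} ∪ {G21}))) : Set (Set P)) := by
      rw [h]
      simp
    have hio : io 2 ∈ G3 := ⟨by show 2 ≤ 3; omega, fun h => absurd h (by show ¬ (2 = 3); omega)⟩
    have hde : de 2 ∈ G3 := ⟨by show 2 ≤ 3; omega, fun h => absurd h (by show ¬ (2 = 3); omega)⟩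
    simp only [Set.mem_union, Set.mem_singleton_iff] at h1
    rcases h1 with h1 | h1 | h1 | h1 | h1
    · rw [h1] at hde
      exact not_inc_de le_rfl hde
    · rw [h1] at hio
      have : (2 : ℕ) ≤ 1 := hio
      omega
    · rw [h1] at hio
      have : (2 : ℕ) ≤ 1 := hio
      omega
    · rw [h1] at hde
      exact not_inc_de le_rfl hde.2
    · rw [h1] at hio
      exact not_dec_io le_rfl hio.2

end Pool.Agent.Results.MP_673260_co.InfiniteNonUnique
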